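import Mathlib

/-!
# MP_2a0133_al : symbolic defect polynomials need not be asymptotically quasi-unimodal

We give a simplicial complex on 7 vertices, of dimension 4, for which the coefficient sequence
of the `m`-th symbolic defect polynomial is not unimodal for all large `m`.
-/

namespace Pool.Agent.Results.MP_2a0133_al.NotQuasiUnimodal

open MvPolynomial

universe u

/-! ### Definitions -/

/-- A simplicial complex on `[n]`, given by its finite set of faces, closed under subsets. -/
structure SimpComplex (n : ℕ) where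
  /-- the faces -/
  faces : Finset (Finset (Fin n))
  /-- subsets of faces are faces -/
  down_closed : ∀ s ∈ faces, ∀ t ⊆ s, t ∈ faces

/-- The dimension: the largest cardinality of a face, minus one. -/
def SimpComplex.dim {n : ℕ} (Δ : SimpComplex n) : ℕ := Δ.faces.sup Finset.card - 1

/-- The facets: the faces that are maximal under inclusion. -/
def SimpComplex.facets {n : ℕ} (Δ : SimpComplex n) : Finset (Finset (Fin n)) :=
  Δ.faces.filter (fun F => ∀ G ∈ Δ.faces, F ⊆ G → G = F)

/-- `Δ^{[i]}`: the simplicial complex whose facets are the `i`-dimensional faces of `Δ`. -/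
def SimpComplex.skel {n : ℕ} (Δ : SimpComplex n) (i : ℕ) : SimpComplex n where
  faces := Finset.univ.filter (fun s => ∃ F ∈ Δ.faces, F.card = i + 1 ∧ s ⊆ F)
  down_closed := by
    intro s hs t hts
    simp only [Finset.mem_filter, Finset.mem_univ, true_and] at hs ⊢
    obtain ⟨F, hF, hc, hsF⟩ := hs
    exact ⟨F, hF, hc, hts.trans hsF⟩

/-- The facet ideal of `Γ` in `K[x_1, …, x_n]`: generated by the monomials
`∏_{v ∈ F} x_v`, `F` a facet of `Γ`. -/
noncomputable def facetIdeal (K : Type u) [Field K] {n : ℕ} (Γ : SimpComplex n) :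
    Ideal (MvPolynomial (Fin n) K) :=
  Ideal.span {f | ∃ F ∈ Γ.facets, f = ∏ v ∈ F, X v}

/-- The `m`-th symbolic power (of a squarefree monomial ideal): the intersection of the `m`-th
powers of the minimal primes. -/
noncomputable def symbolicPower {S : Type u} [CommRing S] (I : Ideal S) (m : ℕ) : Ideal S :=
  ⨅ P ∈ I.minimalPrimes, P ^ m

/-- The minimal number of generators of an `S`-module `M`: the least size of a finite generating
set. -/
noncomputable def minGens (S : Type u) (M : Type u) [CommRing S] [AddCommGroup M] [Module S M] :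
    ℕ :=
  sInf {k : ℕ | ∃ s : Finset M, s.card = k ∧ Submodule.span S (s : Set M) = ⊤}

/-- The symbolic defect: the minimal number of generators of the `S`-module `I^{(m)} / I^m`
(`I ^ m` is pulled back to a submodule of `I^{(m)}` along the inclusion `I^{(m)} → S`). -/
noncomputable def sdefect {S : Type u} [CommRing S] (I : Ideal S) (m : ℕ) : ℕ :=
  minGens S (↥(symbolicPower I m) ⧸
    Submodule.comap (Submodule.subtype (symbolicPower I m)) (I ^ m))

/-- The coefficient `a_i` of the `m`-th symbolic defect polynomial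
`μ_m(Δ, t) = t ^ 2 * ∑_{i=1}^{d-1} a_i t ^ i`. -/
noncomputable def coeffSeq (K : Type u) [Field K] {n : ℕ} (Δ : SimpComplex n) (m i : ℕ) : ℕ :=
  sdefect (facetIdeal K (Δ.skel i)) m

/-- The sequence `a 1, …, a p` is unimodal. -/
def Unimodal (a : ℕ → ℕ) (p : ℕ) : Prop :=
  ∃ k, 1 ≤ k ∧ k ≤ p ∧ (∀ i, 1 ≤ i → i < k → a i ≤ a (i + 1)) ∧
    (∀ i, k ≤ i → i < p → a (i + 1) ≤ a i)

/-- The sequence of symbolic defect polynomials is asymptotically quasi-unimodal. -/
def AsymptoticallyQuasiUnimodal (K : Type u) [Field K] {n : ℕ} (Δ : SimpComplex n) : Prop :=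
  ∃ k : ℕ, 1 ≤ k ∧ ∃ L : ℕ, ∀ l, L ≤ l → k ∣ l → Unimodal (coeffSeq K Δ l) (Δ.dim - 1)

/-! ### Edge ideals of hypergraphs -/

section General

variable (K : Type u) [Field K] {n : ℕ}

/-- edge ideal of a hypergraph -/
noncomputable def edgeIdeal (H : Finset (Finset (Fin n))) : Ideal (MvPolynomial (Fin n) K) :=
  Ideal.span {f | ∃ F ∈ H, f = ∏ v ∈ F, X v}

theorem facets_skel (Δ : SimpComplex n) (i : ℕ) :
    (Δ.skel i).facets = Δ.faces.filter (fun F => F.card = i + 1) := by
  ext F
  simp only [SimpComplex.facets, SimpComplex.skel, Finset.mem_filter, Finset.mem_univ, true_and]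
  constructor
  · rintro ⟨⟨G, hG, hc, hFG⟩, hmax⟩
    have := hmax G ⟨G, hG, hc, subset_rfl⟩ hFG
    subst this
    exact ⟨hG, hc⟩
  · rintro ⟨hF, hc⟩
    refine ⟨⟨F, hF, hc, subset_rfl⟩, ?_⟩
    rintro G ⟨H, hH, hHc, hGH⟩ hFG
    have h1 : F = H := Finset.eq_of_subset_of_card_le (hFG.trans hGH) (by omega)
    subst h1
    exact Finset.Subset.antisymm hGH hFG

theorem facetIdeal_skel (Δ : SimpComplex n) (i : ℕ) :
    facetIdeal K (Δ.skel i) = edgeIdeal K (Δ.faces.filter (fun F => F.card = i + 1)) := by
  rw [facetIdeal, edgeIdeal, facets_skel]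

/-- the weight of an exponent vector on a set of variables -/
def wt (C : Finset (Fin n)) (a : Fin n →₀ ℕ) : ℕ := ∑ j ∈ C, a j

theorem wt_add (C : Finset (Fin n)) (a b : Fin n →₀ ℕ) : wt C (a + b) = wt C a + wt C b := by
  simp [wt, Finset.sum_add_distrib]

/-- polynomials all of whose monomials have weight at least `k` on `C` -/
noncomputable def ordIdeal (C : Finset (Fin n)) (k : ℕ) : Ideal (MvPolynomial (Fin n) K) where
  carrier := {f | ∀ a ∈ f.support, k ≤ wt C a}
  add_mem' := by
    intro f g hf hg a ha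
    rcases Finset.mem_union.mp (MvPolynomial.support_add ha) with h | h
    · exact hf a h
    · exact hg a h
  zero_mem' := by simp
  smul_mem' := by
    intro c f hf a ha
    rw [smul_eq_mul] at ha
    obtain ⟨u, hu, v, hv, rfl⟩ := Finset.mem_add.mp (MvPolynomial.support_mul c f ha)
    rw [wt_add]
    exact (hf v hv).trans (Nat.le_add_left _ _)

theorem mem_ordIdeal {C : Finset (Fin n)} {k : ℕ} {f : MvPolynomial (Fin n) K} :
    f ∈ ordIdeal K C k ↔ ∀ a ∈ f.support, k ≤ wt C a := Iff.rfl

theorem ordIdeal_mul_le (C : Finset (Fin n)) (k l : ℕ) :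
    ordIdeal K C k * ordIdeal K C l ≤ ordIdeal K C (k + l) := by
  rw [Ideal.mul_le]
  intro f hf g hg a ha
  obtain ⟨u, hu, v, hv, rfl⟩ := Finset.mem_add.mp (MvPolynomial.support_mul f g ha)
  rw [wt_add]
  exact Nat.add_le_add (hf u hu) (hg v hv)

theorem pow_ordIdeal_le (C : Finset (Fin n)) (k m : ℕ) :
    ordIdeal K C k ^ m ≤ ordIdeal K C (k * m) := by
  induction m with
  | zero =>
    intro f _ a _
    simp
  | succ m ih =>
    rw [pow_succ, Nat.mul_succ]
    exact (Ideal.mul_mono_left ih).trans (ordIdeal_mul_le K C _ _)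

theorem prod_X_eq (F : Finset (Fin n)) :
    (∏ v ∈ F, X v : MvPolynomial (Fin n) K) = monomial (∑ v ∈ F, Finsupp.single v 1) 1 := by
  rw [MvPolynomial.monomial_sum_one]
  rfl

theorem prod_X_mem_ordIdeal (C F : Finset (Fin n)) (k : ℕ) (h : k ≤ (C ∩ F).card) :
    (∏ v ∈ F, X v : MvPolynomial (Fin n) K) ∈ ordIdeal K C k := by
  rw [prod_X_eq, mem_ordIdeal]
  intro a ha
  have ha' := MvPolynomial.support_monomial_subset ha
  rw [Finset.mem_singleton] at ha'
  subst ha'
  refine h.trans ?_
  rw [wt]
  have : ∀ j ∈ C, (∑ v ∈ F, Finsupp.single v 1 : Fin n →₀ ℕ) j = if j ∈ F then 1 else 0 := by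
    intro j _
    rw [Finsupp.finsetSum_apply]
    simp [Finsupp.single_apply]
  rw [Finset.sum_congr rfl this]
  simp

/-- the prime generated by the variables in `C` -/
noncomputable def varIdeal (C : Finset (Fin n)) : Ideal (MvPolynomial (Fin n) K) :=
  Ideal.span (X '' (C : Set (Fin n)))

theorem X_mem_varIdeal_iff (C : Finset (Fin n)) (j : Fin n) :
    (X j : MvPolynomial (Fin n) K) ∈ varIdeal K C ↔ j ∈ C := by
  classical
  rw [varIdeal, MvPolynomial.mem_ideal_span_X_image]
  simp only [MvPolynomial.support_X, Finset.mem_singleton, forall_eq]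
  constructor
  · rintro ⟨i, hi, h⟩
    by_cases hij : j = i
    · subst hij; exact hi
    · simp [hij] at h
  · intro h
    exact ⟨j, h, by simp⟩

theorem varIdeal_le_ordIdeal (C : Finset (Fin n)) : varIdeal K C ≤ ordIdeal K C 1 := by
  rw [varIdeal, Ideal.span_le]
  rintro _ ⟨j, hj, rfl⟩
  have := prod_X_mem_ordIdeal K C {j} 1 (by
    rw [Finset.inter_singleton_of_mem (by simpa using hj)]; simp)
  simpa using this

theorem varIdeal_isPrime (C : Finset (Fin n)) : (varIdeal K C).IsPrime := by
  classical
  let φ : MvPolynomial (Fin n) K →ₐ[K] MvPolynomial (Fin n) K :=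
    MvPolynomial.aeval (fun j => if j ∈ C then 0 else X j)
  have hker : RingHom.ker φ.toRingHom = varIdeal K C := by
    apply le_antisymm
    · intro f hf
      have h1 : ∀ g : MvPolynomial (Fin n) K, g - φ g ∈ varIdeal K C := by
        intro g
        induction g using MvPolynomial.induction_on with
        | C a => simp [φ]
        | add p q hp hq =>
          have : p + q - φ (p + q) = (p - φ p) + (q - φ q) := by
            rw [map_add]; ring
          rw [this]
          exact Ideal.add_mem _ hp hq
        | mul_X p j hp =>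
          have hX : (X j : MvPolynomial (Fin n) K) - φ (X j) ∈ varIdeal K C := by
            simp only [φ, MvPolynomial.aeval_X]
            split_ifs with hj
            · rw [sub_zero, X_mem_varIdeal_iff]; exact hj
            · rw [sub_self]; exact Ideal.zero_mem _
          have : p * X j - φ (p * X j) = (p - φ p) * X j + φ p * (X j - φ (X j)) := by
            rw [map_mul]; ring
          rw [this]
          exact Ideal.add_mem _ (Ideal.mul_mem_right _ _ hp) (Ideal.mul_mem_left _ _ hX)
      have h2 := h1 f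
      have h3 : φ f = 0 := hf
      rwa [h3, sub_zero] at h2
    · rw [varIdeal, Ideal.span_le]
      rintro _ ⟨j, hj, rfl⟩
      have hj' : j ∈ C := by simpa using hj
      change φ (X j) = 0
      simp [φ, hj']
  rw [← hker]
  exact RingHom.ker_isPrime _

/-- `C` meets all edges. -/
def IsCover (H : Finset (Finset (Fin n))) (C : Finset (Fin n)) : Prop :=
  ∀ F ∈ H, ∃ v ∈ F, v ∈ C

/-- `C` is a minimal cover. -/
def IsMinCover (H : Finset (Finset (Fin n))) (C : Finset (Fin n)) : Prop :=
  IsCover H C ∧ ∀ v ∈ C, ∃ F ∈ H, ∀ w ∈ F, w ∈ C → w = v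

theorem varIdeal_mem_minimalPrimes {H : Finset (Finset (Fin n))} {C : Finset (Fin n)}
    (hC : IsMinCover H C) : varIdeal K C ∈ (edgeIdeal K H).minimalPrimes := by
  refine ⟨⟨varIdeal_isPrime K C, ?_⟩, ?_⟩
  · rw [edgeIdeal, Ideal.span_le]
    rintro _ ⟨F, hF, rfl⟩
    obtain ⟨v, hv, hvC⟩ := hC.1 F hF
    have : (X v : MvPolynomial (Fin n) K) ∈ varIdeal K C := by
      rw [X_mem_varIdeal_iff]; exact hvC
    exact Ideal.mem_of_dvd _ (Finset.dvd_prod_of_mem _ hv) this
  · rintro Q ⟨hQ, hIQ⟩ hQC
    change varIdeal K C ≤ Q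
    rw [varIdeal, Ideal.span_le]
    rintro _ ⟨v, hv, rfl⟩
    obtain ⟨F, hF, hFv⟩ := hC.2 v (by simpa using hv)
    have h1 : (∏ v ∈ F, X v : MvPolynomial (Fin n) K) ∈ Q :=
      hIQ (Ideal.subset_span ⟨F, hF, rfl⟩)
    obtain ⟨w, hwF, hwQ⟩ := (hQ.prod_mem_iff).mp h1
    have h2 : w ∈ C := (X_mem_varIdeal_iff K C w).mp (hQC hwQ)
    rw [← hFv w hwF h2]
    exact hwQ

theorem symbolicPower_le_ordIdeal {H : Finset (Finset (Fin n))} {C : Finset (Fin n)}
    (hC : IsMinCover H C) (m : ℕ) : symbolicPower (edgeIdeal K H) m ≤ ordIdeal K C m := by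
  have h1 : symbolicPower (edgeIdeal K H) m ≤ varIdeal K C ^ m :=
    iInf₂_le _ (varIdeal_mem_minimalPrimes K hC)
  refine h1.trans ((Ideal.pow_right_mono (varIdeal_le_ordIdeal K C) m).trans ?_)
  have := pow_ordIdeal_le K C 1 m
  rwa [one_mul] at this

theorem monomial_mem_symbolicPower {H : Finset (Finset (Fin n))} {m : ℕ} {a : Fin n →₀ ℕ}
    (ha : ∀ C, IsCover H C → m ≤ wt C a) :
    (monomial a 1 : MvPolynomial (Fin n) K) ∈ symbolicPower (edgeIdeal K H) m := by
  classical
  rw [symbolicPower]
  simp only [Submodule.mem_iInf]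
  rintro P ⟨⟨hP, hIP⟩, -⟩
  let C : Finset (Fin n) := Finset.univ.filter (fun j => (X j : MvPolynomial (Fin n) K) ∈ P)
  have hC : IsCover H C := by
    intro F hF
    have h1 : (∏ v ∈ F, X v : MvPolynomial (Fin n) K) ∈ P :=
      hIP (Ideal.subset_span ⟨F, hF, rfl⟩)
    obtain ⟨w, hwF, hwP⟩ := (hP.prod_mem_iff).mp h1
    exact ⟨w, hwF, by simp [C, hwP]⟩
  have h2 : (∏ j ∈ C, X j ^ a j : MvPolynomial (Fin n) K) ∈ P ^ wt C a := by
    rw [wt, ← Finset.prod_pow_eq_pow_sum]
    apply Ideal.prod_mem_prod
    intro j hj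
    apply Ideal.pow_mem_pow
    simpa [C] using hj
  have h3 : (∏ j ∈ C, X j ^ a j : MvPolynomial (Fin n) K) ∣ monomial a 1 := by
    rw [MvPolynomial.monomial_eq, map_one, one_mul, Finsupp.prod_fintype _ _ (by simp)]
    exact Finset.prod_dvd_prod_of_subset _ _ _ (Finset.subset_univ _)
  exact Ideal.pow_le_pow_right (ha C hC) (Ideal.mem_of_dvd _ h3 h2)

/-! ### Lower bound for the symbolic defect -/

/-- the coefficient functionals on the symbolic power -/
noncomputable def coeffFun {I : Ideal (MvPolynomial (Fin n) K)} (T : Finset (Fin n →₀ ℕ))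
    (hT : ∀ a ∈ T, ∀ f ∈ I, ∀ b ∈ f.support, b ≤ a → b = a) :
    ↥I →ₛₗ[(constantCoeff : MvPolynomial (Fin n) K →+* K)] (T → K) where
  toFun f := fun a => coeff a.1 f.1
  map_add' f g := by
    ext a
    simp
  map_smul' c f := by
    classical
    ext a
    simp only [SetLike.val_smul, smul_eq_mul, Pi.smul_apply]
    rw [MvPolynomial.coeff_mul]
    rw [Finset.sum_eq_single ((0 : Fin n →₀ ℕ), a.1)]
    · rfl
    · rintro ⟨u, v⟩ huv hne
      rw [Finset.HasAntidiagonal.mem_antidiagonal] at huv
      simp only at huv ⊢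
      by_cases hv : coeff v f.1 = 0
      · rw [hv, mul_zero]
      · exfalso
        have h1 : v ∈ f.1.support := MvPolynomial.mem_support_iff.mpr hv
        have h2 : v = a.1 := hT a.1 a.2 f.1 f.2 v h1 (by rw [← huv]; exact le_add_self)
        apply hne
        rw [h2] at huv ⊢
        have h3 : u = 0 := by
          ext j
          have := DFunLike.congr_fun huv j
          simp only [Finsupp.add_apply] at this
          simp only [Finsupp.coe_zero, Pi.zero_apply]
          omega
        rw [h3]
    · intro h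
      exact absurd (by simp) h

theorem sdefect_lower {H : Finset (Finset (Fin n))} {m c : ℕ}
    (hc : ∀ F ∈ H, F.card = c) {C₁ C₂ : Finset (Fin n)} (h₁ : IsMinCover H C₁)
    (h₂ : IsMinCover H C₂) (hU : ∀ j, j ∈ C₁ ∨ j ∈ C₂) (T : Finset (Fin n →₀ ℕ))
    (hT₁ : ∀ a ∈ T, wt C₁ a = m) (hT₂ : ∀ a ∈ T, wt C₂ a = m)
    (hT : ∀ a ∈ T, ∀ C, IsCover H C → m ≤ wt C a)
    (hdeg : ∀ a ∈ T, wt Finset.univ a < c * m) :
    T.card ≤ sdefect (edgeIdeal K H) m := by
  classical
  rw [sdefect, minGens]
  apply le_csInf
  · -- the set is nonempty as the module is noetherian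
    obtain ⟨s, hs⟩ := (IsNoetherian.noetherian (⊤ : Submodule (MvPolynomial (Fin n) K)
      (↥(symbolicPower (edgeIdeal K H) m) ⧸
      Submodule.comap (Submodule.subtype (symbolicPower (edgeIdeal K H) m))
        (edgeIdeal K H ^ m))))
    exact ⟨s.card, s, rfl, hs⟩
  · rintro k ⟨s, rfl, hs⟩
    have hT' : ∀ a ∈ T, ∀ f ∈ symbolicPower (edgeIdeal K H) m, ∀ b ∈ f.support, b ≤ a →
        b = a := by
      intro a ha f hf b hb hba
      have e1 : m ≤ wt C₁ b := symbolicPower_le_ordIdeal K h₁ m hf b hb
      have e2 : m ≤ wt C₂ b := symbolicPower_le_ordIdeal K h₂ m hf b hb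
      have key : ∀ C : Finset (Fin n), m ≤ wt C b → wt C a = m → ∀ j ∈ C, b j = a j := by
        intro C hCb hCa j hj
        by_contra hne
        have hlt : b j < a j := lt_of_le_of_ne (hba j) hne
        have : wt C b < wt C a := Finset.sum_lt_sum (fun i _ => hba i) ⟨j, hj, hlt⟩
        omega
      ext j
      rcases hU j with hj | hj
      · exact key C₁ e1 (hT₁ a ha) j hj
      · exact key C₂ e2 (hT₂ a ha) j hj
    let lam := coeffFun K T hT'
    have hle : Submodule.comap (Submodule.subtype (symbolicPower (edgeIdeal K H) m))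
        (edgeIdeal K H ^ m) ≤ LinearMap.ker lam := by
      intro f hf
      rw [LinearMap.mem_ker]
      funext a
      change coeff a.1 f.1 = 0
      by_contra hne
      have h1 : edgeIdeal K H ≤ ordIdeal K Finset.univ c := by
        rw [edgeIdeal, Ideal.span_le]
        rintro _ ⟨F, hF, rfl⟩
        apply prod_X_mem_ordIdeal
        rw [Finset.univ_inter, hc F hF]
      have h2 : (f.1 : MvPolynomial (Fin n) K) ∈ ordIdeal K Finset.univ (c * m) :=
        pow_ordIdeal_le K _ c m (Ideal.pow_right_mono h1 m hf)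
      have h3 := h2 a.1 (MvPolynomial.mem_support_iff.mpr hne)
      have h4 := hdeg a.1 a.2
      omega
    let lam' := Submodule.liftQ _ lam hle
    have hsurj : Function.Surjective lam' := by
      intro g
      let f0 : MvPolynomial (Fin n) K := ∑ a ∈ T.attach, monomial a.1 (g a)
      have hf0 : f0 ∈ symbolicPower (edgeIdeal K H) m := by
        apply Ideal.sum_mem
        intro a _
        have := monomial_mem_symbolicPower K (hT a.1 a.2)
        have h5 : (monomial a.1 (g a) : MvPolynomial (Fin n) K) = C (g a) * monomial a.1 1 := by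
          rw [MvPolynomial.C_mul_monomial, mul_one]
        rw [h5]
        exact Ideal.mul_mem_left _ _ this
      refine ⟨Submodule.Quotient.mk ⟨f0, hf0⟩, ?_⟩
      change lam ⟨f0, hf0⟩ = g
      funext a
      change coeff a.1 f0 = g a
      simp only [f0, MvPolynomial.coeff_sum, MvPolynomial.coeff_monomial]
      rw [Finset.sum_eq_single a]
      · simp
      · intro b _ hb
        rw [if_neg]
        intro h
        exact hb (Subtype.ext h)
      · intro h
        exact absurd (Finset.mem_attach _ _) h
    have hspan : Submodule.span K (lam' '' (s : Set _)) = ⊤ := by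
      have : RingHomSurjective (constantCoeff : MvPolynomial (Fin n) K →+* K) :=
        ⟨fun c => ⟨C c, by simp⟩⟩
      rw [← Submodule.map_span, hs, Submodule.map_top]
      exact LinearMap.range_eq_top.mpr hsurj
    have h6 : Module.finrank K (T → K) ≤ (s.image lam').card := by
      have h7 := finrank_span_finset_le_card (R := K) (s.image lam')
      rw [Set.finrank, Finset.coe_image, hspan, finrank_top] at h7
      exact h7
    rw [Module.finrank_fintype_fun_eq_card, Fintype.card_coe] at h6
    exact h6.trans Finset.card_image_le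

/-! ### Upper bound for the symbolic defect -/

theorem sdefect_upper {H : Finset (Finset (Fin n))} {m : ℕ} (G : Finset (Fin n →₀ ℕ))
    (hG : ∀ b ∈ G, ∀ C, IsCover H C → m ≤ wt C b)
    (hdiv : ∀ a : Fin n →₀ ℕ, (∀ C, IsMinCover H C → m ≤ wt C a) → ∃ b ∈ G, b ≤ a) :
    sdefect (edgeIdeal K H) m ≤ G.card := by
  classical
  let N := Submodule.comap (Submodule.subtype (symbolicPower (edgeIdeal K H) m))
        (edgeIdeal K H ^ m)
  let g : G → (↥(symbolicPower (edgeIdeal K H) m) ⧸ N) := fun b =>
    Submodule.Quotient.mk ⟨monomial b.1 1, monomial_mem_symbolicPower K (hG b.1 b.2)⟩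
  have hspan : Submodule.span (MvPolynomial (Fin n) K) (Set.range g) = ⊤ := by
    have h1 : ∀ f (hf : f ∈ symbolicPower (edgeIdeal K H) m),
        (⟨f, hf⟩ : ↥(symbolicPower (edgeIdeal K H) m)) ∈
        Submodule.span (MvPolynomial (Fin n) K) (Set.range (fun b : G =>
        (⟨monomial b.1 1, monomial_mem_symbolicPower K (hG b.1 b.2)⟩ :
          ↥(symbolicPower (edgeIdeal K H) m)))) := by
      intro f hf
      have h2 : f ∈ Submodule.span (MvPolynomial (Fin n) K)
          (Set.range (fun b : G => (monomial b.1 1 : MvPolynomial (Fin n) K))) := by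
        rw [f.as_sum]
        apply Submodule.sum_mem
        intro a ha
        obtain ⟨b, hb, hba⟩ := hdiv a (fun C hC => symbolicPower_le_ordIdeal K hC m hf a ha)
        have h3 : (monomial a (coeff a f) : MvPolynomial (Fin n) K) =
            (monomial (a - b) (coeff a f)) • (monomial b 1 : MvPolynomial (Fin n) K) := by
          rw [smul_eq_mul, MvPolynomial.monomial_mul, mul_one, tsub_add_cancel_of_le hba]
        rw [h3]
        exact Submodule.smul_mem _ _ (Submodule.subset_span ⟨⟨b, hb⟩, rfl⟩)
      have h4 : Submodule.map (Submodule.subtype (symbolicPower (edgeIdeal K H) m))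
          (Submodule.span (MvPolynomial (Fin n) K) (Set.range (fun b : G =>
        (⟨monomial b.1 1, monomial_mem_symbolicPower K (hG b.1 b.2)⟩ :
          ↥(symbolicPower (edgeIdeal K H) m))))) = Submodule.span (MvPolynomial (Fin n) K)
          (Set.range (fun b : G => (monomial b.1 1 : MvPolynomial (Fin n) K))) := by
        rw [Submodule.map_span, ← Set.range_comp]
        rfl
      rw [← h4] at h2
      obtain ⟨y, hy, hyf⟩ := h2
      have h5 : y = ⟨f, hf⟩ := Subtype.ext hyf
      rw [← h5]
      exact hy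
    rw [eq_top_iff]
    intro x _
    obtain ⟨⟨f, hf⟩, rfl⟩ := Submodule.Quotient.mk_surjective N x
    have h6 := Submodule.mem_map_of_mem (f := N.mkQ) (h1 f hf)
    rw [Submodule.map_span, ← Set.range_comp] at h6
    exact h6
  have h7 : sInf {k : ℕ | ∃ s : Finset (↥(symbolicPower (edgeIdeal K H) m) ⧸ N),
      s.card = k ∧ Submodule.span (MvPolynomial (Fin n) K)
        (s : Set (↥(symbolicPower (edgeIdeal K H) m) ⧸ N)) = ⊤} ≤ (Finset.univ.image g).card :=
    Nat.sInf_le ⟨Finset.univ.image g, rfl, by
      rw [Finset.coe_image, Finset.coe_univ, Set.image_univ]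
      exact hspan⟩
  exact h7.trans (Finset.card_image_le.trans (by simp))

end General

/-! ### The example -/

section Example

variable (K : Type u) [Field K]

/-- The faces: all sets of at most three vertices, all `4`-sets except `{3,4,5,6}`, and
`{0,1,2,3,4}`. -/
def exFaces : Finset (Finset (Fin 7)) :=
  Finset.univ.filter (fun s => s.card ≤ 3 ∨ (s.card = 4 ∧ s ≠ {3, 4, 5, 6}) ∨
    s = {0, 1, 2, 3, 4})

/-- The example. -/
def ex : SimpComplex 7 where
  faces := exFaces
  down_closed := by
    intro s hs t hts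
    simp only [exFaces, Finset.mem_filter, Finset.mem_univ, true_and] at hs ⊢
    have hcard := Finset.card_le_card hts
    rcases hs with h | h | h
    · left; omega
    · by_cases h4 : t.card = 4
      · have : t = s := Finset.eq_of_subset_of_card_le hts (by omega)
        right; left
        rw [this]; exact h
      · left; omega
    · subst h
      by_cases h5 : t.card = 5
      · have : t = {0, 1, 2, 3, 4} := Finset.eq_of_subset_of_card_le hts (by
          rw [h5]; decide)
        right; right; exact this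
      · by_cases h4 : t.card = 4
        · right; left
          refine ⟨h4, ?_⟩
          rintro rfl
          have : (6 : Fin 7) ∈ ({0, 1, 2, 3, 4} : Finset (Fin 7)) := hts (by decide)
          revert this
          decide
        · left
          have : ({0, 1, 2, 3, 4} : Finset (Fin 7)).card = 5 := by decide
          omega

theorem ex_dim : ex.dim = 4 := by
  have h1 : ex.faces.sup Finset.card = 5 := by
    apply le_antisymm
    · apply Finset.sup_le
      intro s hs
      simp only [ex, exFaces, Finset.mem_filter, Finset.mem_univ, true_and] at hs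
      rcases hs with h | h | h
      · omega
      · omega
      · subst h; decide
    · have : ({0, 1, 2, 3, 4} : Finset (Fin 7)) ∈ ex.faces := by
        simp [ex, exFaces]
      have h2 := Finset.le_sup (f := Finset.card) this
      exact h2
  rw [SimpComplex.dim, h1]

/-- all subsets of a given size -/
def allSets (c : ℕ) : Finset (Finset (Fin 7)) := Finset.univ.filter (fun F => F.card = c)

theorem coeffSeq_one (m : ℕ) : coeffSeq K ex m 1 = sdefect (edgeIdeal K (allSets 2)) m := by
  have h : ex.faces.filter (fun F => F.card = 1 + 1) = allSets 2 := by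
    ext F
    simp only [ex, exFaces, allSets, Finset.mem_filter, Finset.mem_univ, true_and]
    constructor
    · rintro ⟨_, h⟩; exact h
    · intro h
      exact ⟨Or.inl (by omega), h⟩
  rw [coeffSeq, facetIdeal_skel, h]

theorem coeffSeq_two (m : ℕ) : coeffSeq K ex m 2 = sdefect (edgeIdeal K (allSets 3)) m := by
  have h : ex.faces.filter (fun F => F.card = 2 + 1) = allSets 3 := by
    ext F
    simp only [ex, exFaces, allSets, Finset.mem_filter, Finset.mem_univ, true_and]
    constructor
    · rintro ⟨_, h⟩; exact h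
    · intro h
      exact ⟨Or.inl (by omega), h⟩
  rw [coeffSeq, facetIdeal_skel, h]

/-- all `4`-sets except `{3,4,5,6}` -/
def fourSets : Finset (Finset (Fin 7)) :=
  Finset.univ.filter (fun F => F.card = 4 ∧ F ≠ {3, 4, 5, 6})

theorem coeffSeq_three (m : ℕ) : coeffSeq K ex m 3 = sdefect (edgeIdeal K fourSets) m := by
  have h : ex.faces.filter (fun F => F.card = 3 + 1) = fourSets := by
    ext F
    simp only [ex, exFaces, fourSets, Finset.mem_filter, Finset.mem_univ, true_and]
    constructor
    · rintro ⟨h, h4⟩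
      rcases h with h | h | h
      · omega
      · exact h
      · subst h
        revert h4
        decide
    · intro h
      exact ⟨Or.inr (Or.inl h), h.1⟩
  rw [coeffSeq, facetIdeal_skel, h]

/-! Covers of complete hypergraphs -/

theorem card_of_cover {c : ℕ} {C : Finset (Fin 7)} (hC : IsCover (allSets c) C) :
    8 ≤ C.card + c := by
  by_contra h
  have hcard : C.card ≤ 7 := by
    have := Finset.card_le_univ C
    rwa [Fintype.card_fin] at this
  have hcc : c ≤ (Cᶜ).card := by
    rw [Finset.card_compl, Fintype.card_fin]; omega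
  obtain ⟨F, hF, hFc⟩ := Finset.exists_subset_card_eq hcc
  obtain ⟨v, hv, hvC⟩ := hC F (by simp [allSets, hFc])
  exact (Finset.mem_compl.mp (hF hv)) hvC

theorem isMinCover_allSets {c : ℕ} (hc : 1 ≤ c) {C : Finset (Fin 7)} (hC : C.card + c = 8) :
    IsMinCover (allSets c) C := by
  constructor
  · intro F hF
    simp only [allSets, Finset.mem_filter, Finset.mem_univ, true_and] at hF
    by_contra h
    have h1 : Disjoint F C := Finset.disjoint_left.mpr (fun v hv hvC => h ⟨v, hv, hvC⟩)
    have h2 := Finset.card_union_of_disjoint h1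
    have h3 := Finset.card_le_univ (F ∪ C)
    rw [Fintype.card_fin] at h3
    omega
  · intro v hv
    refine ⟨insert v Cᶜ, ?_, ?_⟩
    · simp only [allSets, Finset.mem_filter, Finset.mem_univ, true_and]
      rw [Finset.card_insert_of_notMem (by simpa using hv), Finset.card_compl, Fintype.card_fin]
      omega
    · intro w hw hwC
      rw [Finset.mem_insert] at hw
      rcases hw with h | h
      · exact h
      · exact absurd hwC (Finset.mem_compl.mp h)

theorem wt_sdiff_add {n : ℕ} (C D : Finset (Fin n)) (b : Fin n →₀ ℕ) :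
    wt C b = wt (C ∩ D) b + wt (C \ D) b := by
  rw [wt, wt, wt, ← Finset.sum_inter_add_sum_sdiff C D]

/-- If `C₀` consists of the smallest entries, then its weight is the least. -/
theorem wt_le_of_threshold {n : ℕ} {C₀ C : Finset (Fin n)} {b : Fin n →₀ ℕ} {t : ℕ}
    (h₁ : ∀ i ∈ C₀, b i ≤ t) (h₂ : ∀ i, i ∉ C₀ → t ≤ b i) (hcard : C₀.card ≤ C.card) :
    wt C₀ b ≤ wt C b := by
  rw [wt_sdiff_add C₀ C, wt_sdiff_add C C₀, Finset.inter_comm C₀ C]
  apply Nat.add_le_add_left
  have e1 : wt (C₀ \ C) b ≤ (C₀ \ C).card * t := by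
    rw [wt, ← smul_eq_mul]
    exact Finset.sum_le_card_nsmul _ _ _ (fun i hi => h₁ i (Finset.mem_sdiff.mp hi).1)
  have e2 : (C \ C₀).card * t ≤ wt (C \ C₀) b := by
    rw [wt, ← smul_eq_mul]
    exact Finset.card_nsmul_le_sum _ _ _ (fun i hi => h₂ i (Finset.mem_sdiff.mp hi).2)
  have e3 : (C₀ \ C).card ≤ (C \ C₀).card := by
    have := Finset.card_sdiff_add_card_inter C₀ C
    have := Finset.card_sdiff_add_card_inter C C₀
    rw [Finset.inter_comm] at this
    omega
  exact e1.trans ((Nat.mul_le_mul_right t e3).trans e2)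

theorem wt_sub_single {n : ℕ} (C : Finset (Fin n)) (b : Fin n →₀ ℕ) (v : Fin n) (hv : 0 < b v) :
    wt C (b - Finsupp.single v 1) + (if v ∈ C then 1 else 0) = wt C b := by
  have h1 : (b - Finsupp.single v 1) + Finsupp.single v 1 = b := by
    apply tsub_add_cancel_of_le
    rw [Finsupp.single_le_iff]
    exact hv
  have h2 : wt C (Finsupp.single v 1) = if v ∈ C then 1 else 0 := by
    rw [wt]
    simp [Finsupp.single_apply]
  conv_rhs => rw [← h1]
  rw [wt_add, h2]

/-! The upper bound for `a_2` -/

/-- the parametrisation of the candidates for generators -/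
noncomputable def param (m : ℕ) (p : Equiv.Perm (Fin 7) × (Fin 4 → Fin (m + 1))) :
    Fin 7 →₀ ℕ :=
  Finsupp.equivFunOnFinite.symm (fun j =>
    if h : (p.1.symm j : ℕ) < 4 then (p.2 ⟨p.1.symm j, h⟩ : ℕ)
    else m - ∑ i, (p.2 i : ℕ))

theorem exists_param (m : ℕ) (a : Fin 7 →₀ ℕ)
    (ha : ∀ C : Finset (Fin 7), C.card = 5 → m ≤ wt C a) :
    ∃ p, param m p ≤ a ∧ ∀ C : Finset (Fin 7), C.card = 5 → m ≤ wt C (param m p) := by
  classical
  obtain ⟨b, ⟨hba, hb⟩, hmin⟩ := WellFounded.has_min (InvImage.wf (wt (Finset.univ : Finset (Fin 7)))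
    Nat.lt_wfRel.wf) {b : Fin 7 →₀ ℕ | b ≤ a ∧ ∀ C : Finset (Fin 7), C.card = 5 → m ≤ wt C b}
    ⟨a, le_rfl, ha⟩
  -- `b` is minimal: decreasing an entry destroys the condition
  have hdec : ∀ v, 0 < b v → ∃ C : Finset (Fin 7), C.card = 5 ∧ v ∈ C ∧ wt C b = m := by
    intro v hv
    by_contra hcon
    have h1 : (b - Finsupp.single v 1) ∈ {b : Fin 7 →₀ ℕ | b ≤ a ∧
        ∀ C : Finset (Fin 7), C.card = 5 → m ≤ wt C b} := by
      refine ⟨tsub_le_self.trans hba, fun C hC => ?_⟩
      have h2 := wt_sub_single C b v hv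
      have h3 := hb C hC
      by_cases hvC : v ∈ C
      · rw [if_pos hvC] at h2
        have h4 : wt C b ≠ m := fun h => hcon ⟨C, hC, hvC, h⟩
        omega
      · rw [if_neg hvC] at h2
        omega
    apply hmin _ h1
    have h2 := wt_sub_single Finset.univ b v hv
    rw [if_pos (Finset.mem_univ v)] at h2
    change wt Finset.univ (b - Finsupp.single v 1) < wt Finset.univ b
    omega
  let σ : Equiv.Perm (Fin 7) := Tuple.sort (b : Fin 7 → ℕ)
  have hmono : Monotone ((b : Fin 7 → ℕ) ∘ σ) := Tuple.monotone_sort _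
  let C₀ : Finset (Fin 7) := (Finset.univ.filter (fun i : Fin 7 => i ≤ 4)).map σ.toEmbedding
  have hC₀card : C₀.card = 5 := by
    rw [Finset.card_map]; decide
  have hmem : ∀ j, j ∈ C₀ ↔ σ.symm j ≤ 4 := by
    intro j
    simp only [C₀, Finset.mem_map_equiv, Finset.mem_filter, Finset.mem_univ, true_and]
  have hb1 : ∀ j ∈ C₀, b j ≤ b (σ 4) := by
    intro j hj
    have := hmono ((hmem j).mp hj)
    simpa using this
  have hb2 : ∀ j, j ∉ C₀ → b (σ 4) ≤ b j := by
    intro j hj
    rw [hmem, not_le] at hj
    have := hmono hj.le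
    simpa using this
  have hC₀ : wt C₀ b = m := by
    apply le_antisymm
    · by_cases hz : ∃ v, 0 < b v
      · obtain ⟨v, hv⟩ := hz
        obtain ⟨C, hC, -, hCm⟩ := hdec v hv
        rw [← hCm]
        exact wt_le_of_threshold hb1 hb2 (by omega)
      · have : ∀ v, b v = 0 := fun v => by
          by_contra h; exact hz ⟨v, Nat.pos_of_ne_zero h⟩
        rw [wt, Finset.sum_congr rfl (fun i _ => this i)]
        simp
    · exact hb C₀ hC₀card
  have hb3 : ∀ j, j ∉ C₀ → b j = b (σ 4) := by
    intro j hj
    apply le_antisymm _ (hb2 j hj)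
    by_contra hlt
    push Not at hlt
    obtain ⟨C, hC, hjC, hCm⟩ := hdec j (by omega)
    -- some element of `C₀` is not in `C`
    have h1 : ∃ i ∈ C₀, i ∉ C := by
      by_contra hcon
      have h2 : C₀ ⊆ C := fun i hi => by
        by_contra h; exact hcon ⟨i, hi, h⟩
      have h3 : C₀ = C := Finset.eq_of_subset_of_card_le h2 (by omega)
      exact hj (h3 ▸ hjC)
    obtain ⟨i, hi, hiC⟩ := h1
    have h2 : wt C₀ b ≤ wt (insert i (C.erase j)) b := by
      apply wt_le_of_threshold hb1 hb2
      rw [Finset.card_insert_of_notMem (fun h => hiC (Finset.mem_of_mem_erase h)),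
        Finset.card_erase_of_mem hjC]
      omega
    have h3 : wt (insert i (C.erase j)) b = b i + wt (C.erase j) b := by
      rw [wt, Finset.sum_insert (fun h => hiC (Finset.mem_of_mem_erase h))]
      rfl
    have h4 : b j + wt (C.erase j) b = wt C b := by
      rw [wt, wt, Finset.add_sum_erase _ _ hjC]
    have h5 := hb1 i hi
    omega
  -- now the parametrisation
  have hsum : wt C₀ b = (∑ i : Fin 4, b (σ (i.castLE (by norm_num)))) + b (σ 4) := by
    rw [wt, Finset.sum_map]
    have : (Finset.univ.filter (fun i : Fin 7 => i ≤ 4)) = {0, 1, 2, 3, 4} := by decide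
    rw [this]
    rw [Finset.sum_insert (by decide), Finset.sum_insert (by decide),
      Finset.sum_insert (by decide), Finset.sum_insert (by decide), Finset.sum_singleton]
    simp only [Fin.sum_univ_four]
    simp only [Equiv.coe_toEmbedding]
    rw [← add_assoc, ← add_assoc, ← add_assoc]
    rfl
  let c : Fin 4 → Fin (m + 1) := fun i => ⟨b (σ (i.castLE (by norm_num))), by
    have h1 : b (σ (i.castLE (by norm_num))) ≤ ∑ i : Fin 4, b (σ (i.castLE (by norm_num))) :=
      Finset.single_le_sum (f := fun i : Fin 4 => b (σ (i.castLE (by norm_num))))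
        (fun _ _ => Nat.zero_le _) (Finset.mem_univ i)
    omega⟩
  have hparam : param m (σ, c) = b := by
    ext j
    rw [param, Finsupp.equivFunOnFinite_symm_apply_apply]
    split_ifs with h
    · simp only [c]
      congr 1
      have : (Fin.castLE (by norm_num : 4 ≤ 7) ⟨(σ.symm j : ℕ), h⟩) = σ.symm j := by
        ext; rfl
      rw [this, Equiv.apply_symm_apply]
    · have h1 : b j = b (σ 4) := by
        by_cases hj : j ∈ C₀
        · have h2 := (hmem j).mp hj
          have h3 : σ.symm j = 4 := by
            apply le_antisymm h2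
            simp only at h
            rw [Fin.le_def]
            simpa using h
          rw [← h3, Equiv.apply_symm_apply]
        · exact hb3 j hj
      rw [h1]
      simp only [c]
      omega
  exact ⟨(σ, c), by rw [hparam]; exact hba, by rw [hparam]; exact hb⟩

theorem upper_two (m : ℕ) : coeffSeq K ex m 2 ≤ 5040 * (m + 1) ^ 4 := by
  classical
  rw [coeffSeq_two]
  let G : Finset (Fin 7 →₀ ℕ) := (Finset.univ.image (param m)).filter
    (fun b => ∀ C : Finset (Fin 7), C.card = 5 → m ≤ wt C b)
  have hG : G.card ≤ 5040 * (m + 1) ^ 4 := by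
    refine (Finset.card_filter_le _ _).trans (Finset.card_image_le.trans ?_)
    rw [Finset.card_univ, Fintype.card_prod, Fintype.card_perm, Fintype.card_fin,
      Fintype.card_fun, Fintype.card_fin, Fintype.card_fin]
    norm_num [Nat.factorial]
  refine (sdefect_upper K G ?_ ?_).trans hG
  · intro b hb C hC
    have h1 := card_of_cover hC
    obtain ⟨D, hDC, hD⟩ := Finset.exists_subset_card_eq (show 5 ≤ C.card by omega)
    have h2 := (Finset.mem_filter.mp hb).2 D hD
    exact h2.trans (Finset.sum_le_sum_of_subset hDC)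
  · intro a ha
    obtain ⟨p, hp1, hp2⟩ := exists_param m a (fun C hC =>
      ha C (isMinCover_allSets (by norm_num) (by omega)))
    exact ⟨param m p, Finset.mem_filter.mpr ⟨Finset.mem_image_of_mem _ (Finset.mem_univ p), hp2⟩,
      hp1⟩

/-! The lower bound for `a_1` -/

/-- exponent vectors for the lower bound of `a_1` -/
noncomputable def vecOne (m s : ℕ) (x : Fin 5 → Fin s) : Fin 7 →₀ ℕ :=
  Finsupp.equivFunOnFinite.symm ![m - (5 + x 0 + x 1 + x 2 + x 3 + x 4),
    m - (5 + x 0 + x 1 + x 2 + x 3 + x 4), 1 + x 0, 1 + x 1, 1 + x 2, 1 + x 3, 1 + x 4]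

theorem vecOne_injective (m s : ℕ) : Function.Injective (vecOne m s) := by
  intro x y hxy
  have h := fun j => DFunLike.congr_fun hxy j
  simp only [vecOne, Finsupp.equivFunOnFinite_symm_apply_apply] at h
  have h2 := h 2
  have h3 := h 3
  have h4 := h 4
  have h5 := h 5
  have h6 := h 6
  simp only [Matrix.cons_val] at h2 h3 h4 h5 h6
  funext i
  apply Fin.ext
  fin_cases i <;> simp only [Fin.zero_eta, Fin.mk_one, Fin.reduceFinMk] <;> omega

theorem lower_one (m s : ℕ) (hs : 72 * s ≤ m) : s ^ 5 ≤ coeffSeq K ex m 1 := by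
  classical
  rw [coeffSeq_one]
  have hcard : (Finset.univ.image (vecOne m s)).card = s ^ 5 := by
    rw [Finset.card_image_of_injective _ (vecOne_injective m s)]
    simp
  rw [← hcard]
  have hval : ∀ x : Fin 5 → Fin s, wt (Finset.univ.erase 0) (vecOne m s x) = m ∧
      wt (Finset.univ.erase 1) (vecOne m s x) = m ∧ wt Finset.univ (vecOne m s x) < 2 * m ∧
      ∀ v : Fin 7, m ≤ wt (Finset.univ.erase v) (vecOne m s x) := by
    intro x
    have b0 := (x 0).isLt
    have b1 := (x 1).isLt
    have b2 := (x 2).isLt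
    have b3 := (x 3).isLt
    have b4 := (x 4).isLt
    have htot : wt Finset.univ (vecOne m s x) = m + (m - (5 + x 0 + x 1 + x 2 + x 3 + x 4)) := by
      rw [wt]
      simp only [vecOne, Finsupp.equivFunOnFinite_symm_apply_apply, Fin.sum_univ_succ,
        Fin.sum_univ_zero, Matrix.cons_val_zero, Matrix.cons_val_succ]
      omega
    have herase : ∀ v : Fin 7, vecOne m s x v + wt (Finset.univ.erase v) (vecOne m s x) =
        wt Finset.univ (vecOne m s x) := by
      intro v
      rw [wt, wt, Finset.add_sum_erase _ _ (Finset.mem_univ v)]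
    have hv : ∀ v : Fin 7, vecOne m s x v ≤ m - (5 + x 0 + x 1 + x 2 + x 3 + x 4) := by
      intro v
      fin_cases v
      · change m - (5 + x 0 + x 1 + x 2 + x 3 + x 4) ≤ _
        omega
      · change m - (5 + x 0 + x 1 + x 2 + x 3 + x 4) ≤ _
        omega
      · change 1 + (x 0 : ℕ) ≤ _
        omega
      · change 1 + (x 1 : ℕ) ≤ _
        omega
      · change 1 + (x 2 : ℕ) ≤ _
        omega
      · change 1 + (x 3 : ℕ) ≤ _
        omega
      · change 1 + (x 4 : ℕ) ≤ _
        omega
    have h0 : vecOne m s x 0 = m - (5 + x 0 + x 1 + x 2 + x 3 + x 4) := rfl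
    have h1 : vecOne m s x 1 = m - (5 + x 0 + x 1 + x 2 + x 3 + x 4) := rfl
    refine ⟨?_, ?_, ?_, ?_⟩
    · have := herase 0
      omega
    · have := herase 1
      omega
    · omega
    · intro v
      have := herase v
      have := hv v
      omega
  refine sdefect_lower K (c := 2) (C₁ := Finset.univ.erase 0) (C₂ := Finset.univ.erase 1)
    ?_ ?_ ?_ ?_ _ ?_ ?_ ?_ ?_
  · intro F hF
    exact (Finset.mem_filter.mp hF).2
  · exact isMinCover_allSets (by norm_num) (by decide)
  · exact isMinCover_allSets (by norm_num) (by decide)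
  · decide
  · intro a ha
    obtain ⟨x, -, rfl⟩ := Finset.mem_image.mp ha
    exact (hval x).1
  · intro a ha
    obtain ⟨x, -, rfl⟩ := Finset.mem_image.mp ha
    exact (hval x).2.1
  · intro a ha C hC
    obtain ⟨x, -, rfl⟩ := Finset.mem_image.mp ha
    have h1 := card_of_cover hC
    have h2 : ∃ v, Finset.univ.erase v ⊆ C := by
      have hcc : (Cᶜ).card ≤ 1 := by
        rw [Finset.card_compl, Fintype.card_fin]; omega
      rcases Finset.card_le_one_iff_subset_singleton.mp hcc with ⟨v, hv⟩
      refine ⟨v, fun j hj => ?_⟩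
      by_contra hjC
      have := hv (Finset.mem_compl.mpr hjC)
      rw [Finset.mem_singleton] at this
      exact (Finset.mem_erase.mp hj).1 this
    obtain ⟨v, hv⟩ := h2
    exact ((hval x).2.2.2 v).trans (Finset.sum_le_sum_of_subset hv)
  · intro a ha
    obtain ⟨x, -, rfl⟩ := Finset.mem_image.mp ha
    exact (hval x).2.2.1

/-! The lower bound for `a_3` -/

/-- exponent vectors for the lower bound of `a_3` -/
noncomputable def vecThree (s r : ℕ) (x : Fin 5 → Fin s) : Fin 7 →₀ ℕ :=
  Finsupp.equivFunOnFinite.symm ![21 * s + r + x 0, 21 * s + r + x 1, 30 * s - r - x 0 - x 1,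
    17 * s + x 2, 17 * s + x 3, 17 * s + x 4, 21 * s + r - x 2 - x 3 - x 4]

theorem vecThree_injective (s r : ℕ) : Function.Injective (vecThree s r) := by
  intro x y hxy
  have h := fun j => DFunLike.congr_fun hxy j
  simp only [vecThree, Finsupp.equivFunOnFinite_symm_apply_apply] at h
  have h0 := h 0
  have h1 := h 1
  have h3 := h 3
  have h4 := h 4
  have h5 := h 5
  simp only [Matrix.cons_val] at h0 h1 h3 h4 h5
  funext i
  apply Fin.ext
  fin_cases i <;> simp only [Fin.zero_eta, Fin.mk_one, Fin.reduceFinMk] <;> omega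

theorem cover_fourSets {C : Finset (Fin 7)} (hC : IsCover fourSets C) :
    {0, 1, 2} ⊆ C ∨ 4 ≤ C.card := by
  by_contra hcon
  rw [not_or] at hcon
  obtain ⟨h1, h2⟩ := hcon
  rw [Finset.not_subset] at h1
  obtain ⟨v, hv, hvC⟩ := h1
  obtain ⟨F, hvF, hFC, hF⟩ := Finset.exists_subsuperset_card_eq
    (s := {v}) (t := Cᶜ) (n := 4) (by simpa using hvC) (by simp) (by
      rw [Finset.card_compl, Fintype.card_fin]; omega)
  have hvF' : v ∈ F := hvF (Finset.mem_singleton_self v)
  have hFne : F ≠ {3, 4, 5, 6} := by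
    rintro rfl
    clear hvF hvC
    revert hv hvF'
    revert v
    decide
  obtain ⟨w, hw, hwC⟩ := hC F (Finset.mem_filter.mpr ⟨Finset.mem_univ _, hF, hFne⟩)
  exact (Finset.mem_compl.mp (hFC hw)) hwC

theorem minCover_A : IsMinCover fourSets ({0, 1, 2} : Finset (Fin 7)) := by
  constructor
  · intro F hF
    obtain ⟨-, hF4, hFne⟩ := Finset.mem_filter.mp hF
    by_contra hcon
    apply hFne
    apply Finset.eq_of_subset_of_card_le
    · intro w hw
      have : w ∉ ({0, 1, 2} : Finset (Fin 7)) := fun h => hcon ⟨w, hw, h⟩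
      clear hw
      revert this
      revert w
      decide
    · rw [hF4]; decide
  · intro v hv
    refine ⟨{v, 3, 4, 5}, ?_, ?_⟩
    · revert v; decide
    · revert v; decide

theorem minCover_B : IsMinCover fourSets ({3, 4, 5, 6} : Finset (Fin 7)) := by
  constructor
  · intro F hF
    obtain ⟨-, hF4, hFne⟩ := Finset.mem_filter.mp hF
    by_contra hcon
    have h1 : F ⊆ {0, 1, 2} := by
      intro w hw
      have : w ∉ ({3, 4, 5, 6} : Finset (Fin 7)) := fun h => hcon ⟨w, hw, h⟩
      clear hw
      revert this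
      revert w
      decide
    have h2 := Finset.card_le_card h1
    have h3 : ({0, 1, 2} : Finset (Fin 7)).card = 3 := by decide
    omega
  · intro v hv
    refine ⟨{0, 1, 2, v}, ?_, ?_⟩
    · revert v; decide
    · revert v; decide

theorem lower_three (m s r : ℕ) (hm : m = 72 * s + r) (hr : r < 72) (hs : 72 ≤ s) :
    s ^ 5 ≤ coeffSeq K ex m 3 := by
  classical
  rw [coeffSeq_three]
  have hcard : (Finset.univ.image (vecThree s r)).card = s ^ 5 := by
    rw [Finset.card_image_of_injective _ (vecThree_injective s r)]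
    simp
  rw [← hcard]
  have hval : ∀ x : Fin 5 → Fin s, wt {0, 1, 2} (vecThree s r x) = m ∧
      wt {3, 4, 5, 6} (vecThree s r x) = m ∧
      (∀ i ∈ ({3, 4, 5, 6} : Finset (Fin 7)), vecThree s r x i ≤ 21 * s + r) ∧
      (∀ i, i ∉ ({3, 4, 5, 6} : Finset (Fin 7)) → 21 * s + r ≤ vecThree s r x i) := by
    intro x
    have b0 := (x 0).isLt
    have b1 := (x 1).isLt
    have b2 := (x 2).isLt
    have b3 := (x 3).isLt
    have b4 := (x 4).isLt
    have v0 : vecThree s r x 0 = 21 * s + r + x 0 := rfl
    have v1 : vecThree s r x 1 = 21 * s + r + x 1 := rfl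
    have v2 : vecThree s r x 2 = 30 * s - r - x 0 - x 1 := rfl
    have v3 : vecThree s r x 3 = 17 * s + x 2 := rfl
    have v4 : vecThree s r x 4 = 17 * s + x 3 := rfl
    have v5 : vecThree s r x 5 = 17 * s + x 4 := rfl
    have v6 : vecThree s r x 6 = 21 * s + r - x 2 - x 3 - x 4 := rfl
    refine ⟨?_, ?_, ?_, ?_⟩
    · rw [wt, Finset.sum_insert (by decide), Finset.sum_insert (by decide),
        Finset.sum_singleton, v0, v1, v2]
      omega
    · rw [wt, Finset.sum_insert (by decide), Finset.sum_insert (by decide),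
        Finset.sum_insert (by decide), Finset.sum_singleton, v3, v4, v5, v6]
      omega
    · intro i hi
      fin_cases i
      · exact absurd hi (by decide)
      · exact absurd hi (by decide)
      · exact absurd hi (by decide)
      · change vecThree s r x 3 ≤ _
        omega
      · change vecThree s r x 4 ≤ _
        omega
      · change vecThree s r x 5 ≤ _
        omega
      · change vecThree s r x 6 ≤ _
        omega
    · intro i hi
      fin_cases i
      · change _ ≤ vecThree s r x 0
        omega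
      · change _ ≤ vecThree s r x 1
        omega
      · change _ ≤ vecThree s r x 2
        omega
      · exact absurd (by decide) hi
      · exact absurd (by decide) hi
      · exact absurd (by decide) hi
      · exact absurd (by decide) hi
  refine sdefect_lower K (c := 4) (C₁ := {0, 1, 2}) (C₂ := {3, 4, 5, 6})
    ?_ ?_ ?_ ?_ _ ?_ ?_ ?_ ?_
  · intro F hF
    exact (Finset.mem_filter.mp hF).2.1
  · exact minCover_A
  · exact minCover_B
  · decide
  · intro a ha
    obtain ⟨x, -, rfl⟩ := Finset.mem_image.mp ha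
    exact (hval x).1
  · intro a ha
    obtain ⟨x, -, rfl⟩ := Finset.mem_image.mp ha
    exact (hval x).2.1
  · intro a ha C hC
    obtain ⟨x, -, rfl⟩ := Finset.mem_image.mp ha
    obtain ⟨e1, e2, e3, e4⟩ := hval x
    rcases cover_fourSets hC with h | h
    · rw [← e1]
      exact Finset.sum_le_sum_of_subset h
    · have h2 := wt_le_of_threshold (C := C) e3 e4 (by
        have : ({3, 4, 5, 6} : Finset (Fin 7)).card = 4 := by decide
        omega)
      rw [e2] at h2
      exact h2
  · intro a ha
    obtain ⟨x, -, rfl⟩ := Finset.mem_image.mp ha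
    obtain ⟨e1, e2, -, -⟩ := hval x
    have h1 : (Finset.univ : Finset (Fin 7)) = {0, 1, 2} ∪ {3, 4, 5, 6} := by decide
    have h2 : wt Finset.univ (vecThree s r x) = wt {0, 1, 2} (vecThree s r x) +
        wt {3, 4, 5, 6} (vecThree s r x) := by
      rw [wt, h1, Finset.sum_union (by decide)]
      rfl
    omega

/-- For all large `m` the three coefficients form a strict valley. -/
theorem valley (m : ℕ) (hm : 72 * (10 ^ 13 + 1) ≤ m) :
    coeffSeq K ex m 2 < coeffSeq K ex m 1 ∧ coeffSeq K ex m 2 < coeffSeq K ex m 3 := by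
  obtain ⟨s, r, hr, hms⟩ : ∃ s r, r < 72 ∧ m = 72 * s + r :=
    ⟨m / 72, m % 72, Nat.mod_lt _ (by norm_num), (Nat.div_add_mod m 72).symm⟩
  have hs : 10 ^ 13 ≤ s := by omega
  have h1 := lower_one K m s (by omega)
  have h3 := lower_three K m s r hms hr (by omega)
  have h2 := upper_two K m
  have h4 : 5040 * (m + 1) ^ 4 < s ^ 5 := by
    have e1 : m + 1 ≤ 144 * s := by omega
    calc 5040 * (m + 1) ^ 4 ≤ 5040 * (144 * s) ^ 4 := by gcongr
      _ = (5040 * 144 ^ 4) * s ^ 4 := by ring
      _ < s * s ^ 4 := by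
        apply Nat.mul_lt_mul_of_pos_right
        · omega
        · positivity
      _ = s ^ 5 := by ring
  omega

end Example

/-- **Negative answer to the question.** There is a finite simplicial complex of dimension 4 (on a
vertex set `[n]`, all of whose elements are vertices) whose sequence of symbolic defect polynomials
is not asymptotically quasi-unimodal (over any field); its coefficient sequences have the three
terms `a_1, a_2, a_3`. -/
theorem result : ∃ (n : ℕ) (Δ : SimpComplex n), (∀ v : Fin n, {v} ∈ Δ.faces) ∧ Δ.dim = 4 ∧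
    ∀ (K : Type u) [Field K], ¬ AsymptoticallyQuasiUnimodal K Δ := by
  refine ⟨7, ex, ?_, ex_dim, ?_⟩
  · intro v
    simp [ex, exFaces]
  · rintro K _ ⟨k, hk, L, hL⟩
    obtain ⟨p, hp1, hp3, hup, hdown⟩ := hL (k * (L + 72 * (10 ^ 13 + 1)))
      (by nlinarith) ⟨_, rfl⟩
    have hv := valley K (k * (L + 72 * (10 ^ 13 + 1))) (by nlinarith)
    rw [ex_dim] at hp3 hdown
    rcases Nat.lt_or_ge 1 p with h | h
    · have h5 : coeffSeq K ex (k * (L + 72 * (10 ^ 13 + 1))) 1 ≤
          coeffSeq K ex (k * (L + 72 * (10 ^ 13 + 1))) 2 := hup 1 le_rfl h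
      exact absurd hv.1 (not_lt.mpr h5)
    · have h5 : coeffSeq K ex (k * (L + 72 * (10 ^ 13 + 1))) 3 ≤
          coeffSeq K ex (k * (L + 72 * (10 ^ 13 + 1))) 2 := hdown 2 (by omega) (by norm_num)
      exact absurd hv.2 (not_lt.mpr h5)

end Pool.Agent.Results.MP_2a0133_al.NotQuasiUnimodal
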